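import Pool.Agent.helper55.VD.SpecE2

/-!
# Project VD (MP_07c750_an), block E, row EPK: freezing a smooth function inside a packet
-/

set_option autoImplicit false

open scoped ContDiff Topology InnerProductSpace ComplexConjugate
open MeasureTheory Filter Set

namespace Pool.Agent.VD

open Pool.Agent.VQ (CH KZ PS perZ cmZ)

noncomputable section

/-- the Leibniz estimate at one point -/
theorem EPK_leib {d : ℕ} (A : V d → ℂ) (B : V d → ℝ) (hA : ContDiff ℝ ∞ A) (hB : ContDiff ℝ ∞ B) (k : ℕ) (v : V d) (m ρ b : ℝ)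
    (h1 : ∀ i ≤ k, ‖iteratedFDeriv ℝ i B v‖ * ρ ^ (k - i) ≤ b * ρ ^ k) (hm : 0 ≤ m)
    (h2 : ∀ i ≤ k, ‖iteratedFDeriv ℝ i A v‖ ≤ m * ρ ^ i) :
    ‖iteratedFDeriv ℝ k (fun w => ((B w : ℝ) : ℂ) * A w) v‖ ≤ 2 ^ k * (b * m * ρ ^ k) := by
  have hBc : ContDiff ℝ ∞ (fun w => ((B w : ℝ) : ℂ)) := Complex.ofRealCLM.contDiff.comp hB
  have hn : ∀ i : ℕ, ‖iteratedFDeriv ℝ i (fun w => ((B w : ℝ) : ℂ)) v‖ = ‖iteratedFDeriv ℝ i B v‖ := by
    intro i
    have h := Complex.ofRealLI.norm_iteratedFDeriv_comp_left (f := B) (x := v) (i := i) (n := ∞) hB.contDiffAt (by exact_mod_cast le_top)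
    exact h
  have hL := norm_iteratedFDeriv_mul_le (𝕜 := ℝ) (N := ∞) hBc hA v (n := k) (by exact_mod_cast le_top)
  refine hL.trans ?_
  have hs : ∑ i ∈ Finset.range (k + 1), ((k.choose i : ℕ) : ℝ) * ‖iteratedFDeriv ℝ i (fun w => ((B w : ℝ) : ℂ)) v‖ * ‖iteratedFDeriv ℝ (k - i) A v‖ ≤
      ∑ i ∈ Finset.range (k + 1), ((k.choose i : ℕ) : ℝ) * (b * m * ρ ^ k) := by
    refine Finset.sum_le_sum fun i hi => ?_
    have hik : i ≤ k := Nat.lt_succ_iff.1 (Finset.mem_range.1 hi)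
    rw [hn i, mul_assoc]
    refine mul_le_mul_of_nonneg_left ?_ (Nat.cast_nonneg _)
    calc ‖iteratedFDeriv ℝ i B v‖ * ‖iteratedFDeriv ℝ (k - i) A v‖
        ≤ ‖iteratedFDeriv ℝ i B v‖ * (m * ρ ^ (k - i)) :=
          mul_le_mul_of_nonneg_left (h2 (k - i) (Nat.sub_le _ _)) (norm_nonneg _)
      _ = m * (‖iteratedFDeriv ℝ i B v‖ * ρ ^ (k - i)) := by ring
      _ ≤ m * (b * ρ ^ k) := mul_le_mul_of_nonneg_left (h1 i hik) hm
      _ = b * m * ρ ^ k := by ring
  refine hs.trans (le_of_eq ?_)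
  rw [← Finset.sum_mul]
  have h3 : (∑ i ∈ Finset.range (k + 1), ((k.choose i : ℕ) : ℝ)) = 2 ^ k := by
    exact_mod_cast Nat.sum_range_choose k
  rw [h3]

/-- outside the support everything vanishes -/
theorem EPK_out {d : ℕ} (A : V d → ℂ) (B : V d → ℝ) (k : ℕ) (v : V d) (r : ℝ) (hs : ∀ v, A v ≠ 0 → ‖v‖ ≤ r) (hv : r < ‖v‖) :
    iteratedFDeriv ℝ k (fun w => ((B w : ℝ) : ℂ) * A w) v = 0 := by
  have h1 : (fun w => ((B w : ℝ) : ℂ) * A w) =ᶠ[𝓝 v] fun _ => (0 : ℂ) := by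
    have h2 : ∀ᶠ w in 𝓝 v, r < ‖w‖ := continuous_norm.continuousAt.eventually (lt_mem_nhds hv)
    filter_upwards [h2] with w hw
    by_cases h0 : A w = 0
    · rw [h0, mul_zero]
    · exact absurd (hs w h0) (not_le.2 hw)
  rw [(h1.iteratedFDeriv ℝ k).self_of_nhds]
  have h3 : iteratedFDeriv ℝ k (fun _ : V d => (0 : ℂ)) = 0 := iteratedFDeriv_fun_zero
  rw [h3]; rfl

/-- the general form: a product of a packet with a real function -/
theorem EPK_gen {d : ℕ} (K : ℕ) (η m R b : ℝ) (q : P d) (f : V d → ℂ) (g : V d → ℝ) (hR : 1 ≤ R) (hm : 0 ≤ m) (hb : 0 ≤ b)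
    (hP : Pk K η m R q f) (hg : ContDiff ℝ ∞ g)
    (h1 : ∀ k ≤ K, ∀ v : V d, ‖v‖ ≤ R ^ (-(1 / 2) + η) → ∀ i ≤ k,
      ‖iteratedFDeriv ℝ i (fun v => g (q.1 + v)) v‖ * (R ^ (1 / 2 + η)) ^ (k - i) ≤ b * (R ^ (1 / 2 + η)) ^ k) :
    Pk K η (2 ^ K * b * m) R q (fun w => ((g w : ℝ) : ℂ) * f w) := by
  obtain ⟨A, hA, hs, hd, hf⟩ := hP
  have hρ : (0 : ℝ) ≤ R ^ (1 / 2 + η) := Real.rpow_nonneg (by linarith) _
  have hG : ContDiff ℝ ∞ (fun v => g (q.1 + v)) := hg.comp (contDiff_const.add contDiff_id)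
  refine ⟨fun v => ((g (q.1 + v) : ℝ) : ℂ) * A v, ?_, ?_, ?_, ?_⟩
  · exact (Complex.ofRealCLM.contDiff.comp hG).mul hA
  · intro v hv
    exact hs v (fun h => hv (by simp only [h, mul_zero]))
  · intro k hk v
    rcases lt_or_ge (R ^ (-(1 / 2) + η)) ‖v‖ with h | h
    · rw [EPK_out A (fun v => g (q.1 + v)) k v _ hs h, norm_zero]
      positivity
    · refine (EPK_leib A (fun v => g (q.1 + v)) hA hG k v m (R ^ (1 / 2 + η)) b (h1 k hk v h) hm (fun i hi => hd i (hi.trans hk) v)).trans ?_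
      have h2 : (2 : ℝ) ^ k ≤ 2 ^ K := pow_le_pow_right₀ (by norm_num) hk
      have h3 : (0 : ℝ) ≤ b * m * (R ^ (1 / 2 + η)) ^ k := by positivity
      calc (2 : ℝ) ^ k * (b * m * (R ^ (1 / 2 + η)) ^ k) ≤ 2 ^ K * (b * m * (R ^ (1 / 2 + η)) ^ k) :=
            mul_le_mul_of_nonneg_right h2 h3
        _ = 2 ^ K * b * m * (R ^ (1 / 2 + η)) ^ k := by ring
  · intro w
    simp only
    rw [hf w, show q.1 + (w - q.1) = w by abel]
    ring

theorem EPK_proof : EPK_stmt := by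
  intro d K
  refine ⟨2 ^ K, one_le_pow₀ (by norm_num), ?_⟩
  intro η m R L q f g hη hη' hR hm hL hP hg hgL
  have hR0 : (0 : ℝ) < R := by linarith
  have hρ1 : (1 : ℝ) ≤ R ^ (1 / 2 + η) := Real.one_le_rpow hR (by linarith)
  have hρ0 : (0 : ℝ) < R ^ (1 / 2 + η) := by linarith
  have hr0 : (0 : ℝ) < R ^ (-(1 / 2) + η) := Real.rpow_pos_of_pos hR0 _
  have hr1 : R ^ (-(1 / 2) + η) ≤ 1 := Real.rpow_le_one_of_one_le_of_nonpos hR (by linarith)
  have hinv : (R ^ (1 / 2 + η))⁻¹ ≤ R ^ (-(1 / 2) + η) := by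
    rw [← Real.rpow_neg hR0.le]
    exact Real.rpow_le_rpow_of_exponent_le hR (by linarith)
  -- derivatives of the translate
  have htr : ∀ (h : V d → ℝ) (i : ℕ) (v : V d), iteratedFDeriv ℝ i (fun v => h (q.1 + v)) v = iteratedFDeriv ℝ i h (q.1 + v) := by
    intro h i v
    exact congrFun (iteratedFDeriv_comp_add_left' i q.1) v |>.trans rfl
  refine ⟨?_, ?_⟩
  · -- the frozen difference
    have hg' : ContDiff ℝ ∞ (fun w => g w - g q.1) := hg.sub contDiff_const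
    have hmain := EPK_gen K η m R (L * R ^ (-(1 / 2) + η)) q f (fun w => g w - g q.1) hR hm (by positivity) hP hg' ?_
    · have he : 2 ^ K * L * R ^ (-(1 / 2) + η) * m = 2 ^ K * (L * R ^ (-(1 / 2) + η)) * m := by ring
      rw [he]; exact hmain
    · intro k hk v hv i hi
      have hv1 : ‖v‖ ≤ 1 := hv.trans hr1
      rw [htr (fun w => g w - g q.1) i v]
      rcases Nat.eq_zero_or_pos i with h0 | h0
      · subst h0
        rw [norm_iteratedFDeriv_zero, Nat.sub_zero]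
        refine mul_le_mul_of_nonneg_right ?_ (by positivity)
        have hmv : ‖g (q.1 + v) - g q.1‖ ≤ L * ‖(q.1 + v) - q.1‖ := by
          refine Convex.norm_image_sub_le_of_norm_fderiv_le (𝕜 := ℝ) (s := Metric.closedBall q.1 1) ?_ ?_ (convex_closedBall _ _) ?_ ?_
          · intro x _
            exact (hg.differentiable (by simp)) x
          · intro x hx
            rw [← norm_iteratedFDeriv_one]
            exact hgL 1 (by omega) x (by rw [← dist_eq_norm]; exact Metric.mem_closedBall.1 hx)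
          · exact Metric.mem_closedBall_self (by norm_num)
          · rw [Metric.mem_closedBall, dist_eq_norm, add_sub_cancel_left]; exact hv1
        rw [add_sub_cancel_left] at hmv
        exact hmv.trans (mul_le_mul_of_nonneg_left hv hL)
      · have hc : iteratedFDeriv ℝ i (fun w => g w - g q.1) (q.1 + v) = iteratedFDeriv ℝ i g (q.1 + v) := by
          have h5 := iteratedFDeriv_sub_apply (𝕜 := ℝ) (i := i) (x := q.1 + v) (f := g) (g := fun _ => g q.1)
            (hg.contDiffAt.of_le (by exact_mod_cast le_top)) (contDiffAt_const)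
          have h6 : iteratedFDeriv ℝ i (fun _ : V d => g q.1) (q.1 + v) = 0 := by
            rw [iteratedFDeriv_const_of_ne (by omega)]; rfl
          have h7 : (fun w => g w - g q.1) = g - fun _ => g q.1 := rfl
          rw [h7, h5, h6, sub_zero]
        rw [hc]
        have h8 : ‖iteratedFDeriv ℝ i g (q.1 + v)‖ ≤ L := hgL i (by omega) _ (by rw [add_sub_cancel_left]; exact hv1)
        have h9 : (R ^ (1 / 2 + η)) ^ (k - i) ≤ R ^ (-(1 / 2) + η) * (R ^ (1 / 2 + η)) ^ k := by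
          have h10 : (R ^ (1 / 2 + η)) ^ (k - i) ≤ (R ^ (1 / 2 + η)) ^ (k - 1) := pow_le_pow_right₀ hρ1 (by omega)
          have h11 : (R ^ (1 / 2 + η)) ^ (k - 1) = (R ^ (1 / 2 + η))⁻¹ * (R ^ (1 / 2 + η)) ^ k := by
            have h12 : k = (k - 1) + 1 := by omega
            rw [h12, Nat.add_sub_cancel, pow_succ]
            field_simp
          rw [h11] at h10
          exact h10.trans (mul_le_mul_of_nonneg_right hinv (by positivity))
        calc ‖iteratedFDeriv ℝ i g (q.1 + v)‖ * (R ^ (1 / 2 + η)) ^ (k - i) ≤ L * (R ^ (-(1 / 2) + η) * (R ^ (1 / 2 + η)) ^ k) :=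
              mul_le_mul h8 h9 (by positivity) hL
          _ = L * R ^ (-(1 / 2) + η) * (R ^ (1 / 2 + η)) ^ k := by ring
  · refine EPK_gen K η m R L q f g hR hm hL hP hg ?_
    intro k hk v hv i hi
    have hv1 : ‖v‖ ≤ 1 := hv.trans hr1
    rw [htr g i v]
    have h8 : ‖iteratedFDeriv ℝ i g (q.1 + v)‖ ≤ L := hgL i (by omega) _ (by rw [add_sub_cancel_left]; exact hv1)
    exact mul_le_mul h8 (pow_le_pow_right₀ hρ1 (Nat.sub_le _ _)) (by positivity) hL

end

end Pool.Agent.VD
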